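import Pool.Agent.W345.GK.Gau

/-!
# Project GK, part K1: the universal polynomial
-/

set_option autoImplicit false

open Polynomial Finset

namespace Pool.Agent.W880.GK.K1

open Pool.Agent.W345.GK

lemma prod_inc {M : Type} [CommMonoid M] (d j c : ℕ) (hj : j < d) (x : ℕ → M) (n : ℕ → ℕ) :
    ∏ i ∈ range d, x i ^ (n i + if i = j then c else 0) = x j ^ c * ∏ i ∈ range d, x i ^ n i := by
  simp only [pow_add, prod_mul_distrib]
  rw [mul_comm]
  congr 1
  rw [prod_eq_single j]
  · simp
  · intro b _ hb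
    simp [hb]
  · intro h
    exact absurd (mem_range.mpr hj) h

lemma sum_inc (d j c : ℕ) (hj : j < d) (n w : ℕ → ℕ) :
    ∑ i ∈ range d, (n i + if i = j then c else 0) * w i = ∑ i ∈ range d, n i * w i + c * w j := by
  simp only [add_mul, sum_add_distrib]
  congr 1
  rw [sum_eq_single j]
  · simp
  · intro b _ hb
    simp [hb]
  · intro h
    exact absurd (mem_range.mpr hj) h

/-- the digits of `κ` -/
lemma sum_dig (q κ d : ℕ) : ∑ j ∈ range d, dig q κ j * q ^ j = κ % q ^ d := by
  induction d with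
  | zero => simp [Nat.mod_one]
  | succ d ih =>
    rw [sum_range_succ, ih, Nat.mod_pow_succ, dig, mul_comm (κ / q ^ d % q)]

lemma sum_geo (q d : ℕ) (hq : 1 ≤ q) : ∑ j ∈ range d, (q - 1) * q ^ j = q ^ d - 1 := by
  induction d with
  | zero => simp
  | succ d ih =>
    rw [sum_range_succ, ih, pow_succ]
    have h1 : 1 ≤ q ^ d := Nat.one_le_pow _ _ hq
    obtain ⟨q', rfl⟩ : ∃ q', q = q' + 1 := ⟨q - 1, by omega⟩
    have e : (q' + 1) ^ d * (q' + 1) = (q' + 1) ^ d + q' * (q' + 1) ^ d := by ring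
    rw [e, Nat.add_sub_cancel]
    omega

/-- uniqueness of the digits -/
lemma dig_unique (q d : ℕ) (hq : 0 < q) : ∀ (n : ℕ → ℕ), (∀ i < d, n i < q) → ∀ j < d,
    dig q (∑ i ∈ range d, n i * q ^ i) j = n j := by
  induction d with
  | zero => intro n _ j hj; omega
  | succ d ih =>
    intro n hn j hj
    have e : ∑ i ∈ range (d + 1), n i * q ^ i =
        n 0 + q * ∑ i ∈ range d, (fun i => n (i + 1)) i * q ^ i := by
      rw [sum_range_succ', mul_sum]
      simp only [pow_zero, mul_one]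
      rw [add_comm]
      congr 1
      refine sum_congr rfl fun i _ => ?_
      rw [pow_succ]
      ring
    rw [e]
    have hn0 := hn 0 (by omega)
    rcases Nat.eq_zero_or_pos j with h | h
    · subst h
      unfold dig
      rw [pow_zero, Nat.div_one, Nat.add_mul_mod_self_left, Nat.mod_eq_of_lt hn0]
    · obtain ⟨i, rfl⟩ : ∃ i, j = i + 1 := ⟨j - 1, by omega⟩
      unfold dig
      rw [pow_succ, mul_comm (q ^ i) q, ← Nat.div_div_eq_div_mul, Nat.add_mul_div_left _ _ hq,
        Nat.div_eq_of_lt hn0, zero_add]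
      exact ih (fun i => n (i + 1)) (fun i hi => hn (i + 1) (by omega)) i (by omega)

lemma keyB {F : Type} [Field F] (q d κ : ℕ) (θ : F) (hq : 2 ≤ q) (hκ0 : 0 < κ)
    (hκ : κ < q ^ d - 1) (s : ℕ) : ∀ (n : ℕ → ℕ), ∑ i ∈ range d, n i * 1 = s →
    (∑ i ∈ range d, n i * q ^ i) ≡ κ [MOD q ^ d - 1] →
    ∃ g : F[X], ∀ (S : Type) [CommRing S] [Algebra F[X] S] (G : ℕ → S), IsGS q d θ G →
      ∏ i ∈ range d, G i ^ n i = algebraMap F[X] S g * ∏ i ∈ range d, G i ^ dig q κ i := by
  induction s using Nat.strong_induction_on with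
  | _ s ih =>
  intro n hs hn
  by_cases hbig : ∃ j < d, q ≤ n j
  · obtain ⟨j, hj, hjq⟩ := hbig
    have hd : 0 < d := by omega
    obtain ⟨m, hm⟩ : ∃ m : ℕ → ℕ, m = fun i => n i - if i = j then q else 0 := ⟨_, rfl⟩
    have hnm : n = fun i => m i + if i = j then q else 0 := by
      funext i
      rw [hm]
      dsimp only
      split_ifs with h
      · subst h
        omega
      · omega
    have hj' : (j + 1) % d < d := Nat.mod_lt _ hd
    obtain ⟨n', hn'⟩ : ∃ n' : ℕ → ℕ, n' = fun i => m i + if i = (j + 1) % d then 1 else 0 :=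
      ⟨_, rfl⟩
    have e1 : ∑ i ∈ range d, n i * 1 = ∑ i ∈ range d, m i * 1 + q * 1 := by
      rw [hnm]
      exact sum_inc d j q hj m (fun _ => 1)
    have e2 : ∑ i ∈ range d, n' i * 1 = ∑ i ∈ range d, m i * 1 + 1 * 1 := by
      rw [hn']
      exact sum_inc d _ 1 hj' m (fun _ => 1)
    have e3 : ∑ i ∈ range d, n i * q ^ i = ∑ i ∈ range d, m i * q ^ i + q * q ^ j := by
      rw [hnm]
      exact sum_inc d j q hj m (fun i => q ^ i)
    have e4 : ∑ i ∈ range d, n' i * q ^ i = ∑ i ∈ range d, m i * q ^ i + 1 * q ^ ((j + 1) % d) := by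
      rw [hn']
      exact sum_inc d _ 1 hj' m (fun i => q ^ i)
    have hmod : q ^ ((j + 1) % d) ≡ q * q ^ j [MOD q ^ d - 1] := by
      rcases Nat.lt_or_ge (j + 1) d with h | h
      · rw [Nat.mod_eq_of_lt h, pow_succ, mul_comm]
      · have : j + 1 = d := by omega
        have h1 : q * q ^ j = q ^ d := by
          rw [← this, pow_succ, mul_comm]
        rw [h1, this, Nat.mod_self, pow_zero]
        have h2 : q ^ d = 1 + (q ^ d - 1) := by
          have : 1 ≤ q ^ d := Nat.one_le_pow _ _ (by omega)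
          omega
        rw [h2, Nat.add_sub_cancel_left]
        exact (Nat.add_modEq_right (a := 1) (n := q ^ d - 1)).symm
    have hn'mod : (∑ i ∈ range d, n' i * q ^ i) ≡ κ [MOD q ^ d - 1] := by
      refine Nat.ModEq.trans ?_ hn
      rw [e3, e4, one_mul]
      exact Nat.ModEq.add_left _ hmod
    obtain ⟨g, hg⟩ := ih (∑ i ∈ range d, n' i * 1) (by omega) n' rfl hn'mod
    refine ⟨(C (θ ^ q ^ (j + 1)) - X) * g, ?_⟩
    intro S _ _ G hG
    have f1 : ∏ i ∈ range d, G i ^ n i = G j ^ q * ∏ i ∈ range d, G i ^ m i := by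
      rw [hnm]
      exact prod_inc d j q hj G m
    have f2 : ∏ i ∈ range d, G i ^ n' i = G ((j + 1) % d) ^ 1 * ∏ i ∈ range d, G i ^ m i := by
      rw [hn']
      exact prod_inc d _ 1 hj' G m
    have f3 : G (j + 1) = G ((j + 1) % d) := by
      rcases Nat.lt_or_ge (j + 1) d with h | h
      · rw [Nat.mod_eq_of_lt h]
      · have : j + 1 = d := by omega
        rw [this, Nat.mod_self]
        have := hG.2 0
        rw [zero_add] at this
        exact this
    have f4 := hg S G hG
    rw [f2, pow_one] at f4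
    rw [f1, hG.1 j, f3, map_mul, mul_assoc, f4, mul_assoc]
  · push Not at hbig
    have h1 : ∀ i < d, n i ≤ q - 1 := fun i hi => by
      have := hbig i hi
      omega
    have h2 : ∑ i ∈ range d, n i * q ^ i ≤ q ^ d - 1 := by
      rw [← sum_geo q d (by omega)]
      exact sum_le_sum fun i hi => Nat.mul_le_mul_right _ (h1 i (mem_range.mp hi))
    have h3 : ∑ i ∈ range d, n i * q ^ i = κ := by
      rcases Nat.lt_or_ge (∑ i ∈ range d, n i * q ^ i) (q ^ d - 1) with h | h
      · exact Nat.ModEq.eq_of_lt_of_lt hn h hκ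
      · exfalso
        have h4 : ∑ i ∈ range d, n i * q ^ i = q ^ d - 1 := le_antisymm h2 h
        rw [h4] at hn
        have h5 : (q ^ d - 1) % (q ^ d - 1) = κ % (q ^ d - 1) := hn
        rw [Nat.mod_self, Nat.mod_eq_of_lt hκ] at h5
        omega
    refine ⟨1, ?_⟩
    intro S _ _ G hG
    rw [map_one, one_mul]
    refine prod_congr rfl fun i hi => ?_
    have := dig_unique q d (by omega) n hbig i (mem_range.mp hi)
    rw [h3] at this
    rw [this]

lemma keyA (h3 : S_C3) {k F : Type} [Field k] [Fintype k] [Field F] [Algebra k F] (P : k[X])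
    (θ : F) (κ : ℕ) (hP : P.Monic) (hI : Irreducible P) (hθ : aeval θ P = 0) (hκ0 : 0 < κ)
    (hκ : κ < Fintype.card k ^ P.natDegree - 1) (r : ℕ) : ∀ n : ℕ → ℕ, ∃ g : F[X],
    ∀ (S : Type) [CommRing S] [Algebra F[X] S] (G : ℕ → S), IsGS (Fintype.card k) P.natDegree θ G →
    - ∑ a : Fin P.natDegree → k, algebraMap F[X] S (C (rho P.natDegree θ κ (pol a) *
        ∏ i ∈ range P.natDegree, (aeval (θ ^ Fintype.card k ^ i) (pol a)) ^ n i)) *
      ((∑ j ∈ range P.natDegree,
        algebraMap F[X] S (C (aeval (θ ^ Fintype.card k ^ j) (pol a))) * G j) ^ r *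
          ∏ i ∈ range P.natDegree, G i ^ n i) =
    algebraMap F[X] S g * ∏ j ∈ range P.natDegree, G j ^ dig (Fintype.card k) κ j := by
  obtain ⟨c1, c2, c3, c4, c5, c6⟩ := h3 k F P θ hP hI hθ
  have hq : 2 ≤ Fintype.card k := Fintype.one_lt_card
  set q := Fintype.card k with hqd
  set d := P.natDegree with hd
  induction r with
  | zero =>
    intro n
    -- the sum of the values
    have e0 : ∑ j ∈ range d, ((q - 1 - dig q κ j) + n j) * q ^ j =
        (q ^ d - 1 - κ) + ∑ j ∈ range d, n j * q ^ j := by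
      simp only [add_mul, sum_add_distrib]
      congr 1
      have h1 : ∑ j ∈ range d, (q - 1 - dig q κ j) * q ^ j + ∑ j ∈ range d, dig q κ j * q ^ j =
          ∑ j ∈ range d, (q - 1) * q ^ j := by
        rw [← sum_add_distrib]
        refine sum_congr rfl fun j _ => ?_
        rw [← add_mul]
        congr 1
        have : dig q κ j < q := Nat.mod_lt _ (by omega)
        omega
      rw [sum_geo q d (by omega), sum_dig, Nat.mod_eq_of_lt (by omega)] at h1
      omega
    set e := ∑ j ∈ range d, ((q - 1 - dig q κ j) + n j) * q ^ j with he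
    have hval : ∀ a : Fin d → k, rho d θ κ (pol a) *
        ∏ i ∈ range d, (aeval (θ ^ q ^ i) (pol a)) ^ n i = (aeval θ (pol a)) ^ e := by
      intro a
      unfold rho
      rw [← prod_mul_distrib, he, ← prod_pow_eq_pow_sum]
      refine prod_congr rfl fun j _ => ?_
      rw [← pow_add, c4, ← pow_mul, mul_comm]
    have hsum : ∑ a : Fin d → k, (rho d θ κ (pol a) *
        ∏ i ∈ range d, (aeval (θ ^ q ^ i) (pol a)) ^ n i) =
        open Classical in if (q ^ d - 1) ∣ e then (-1 : F) else 0 := by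
      rw [sum_congr rfl fun a _ => hval a]
      exact c6 e (by rw [e0]; omega)
    by_cases hdiv : (q ^ d - 1) ∣ e
    · have hmod : (∑ i ∈ range d, n i * q ^ i) ≡ κ [MOD q ^ d - 1] := by
        rw [e0] at hdiv
        have h1 : (q ^ d - 1 - κ) + ∑ j ∈ range d, n j * q ^ j ≡ 0 [MOD q ^ d - 1] :=
          (Nat.modEq_zero_iff_dvd).mpr hdiv
        have h2 := Nat.ModEq.add_left κ h1
        have h3 : κ + ((q ^ d - 1 - κ) + ∑ j ∈ range d, n j * q ^ j) =
            (q ^ d - 1) + ∑ j ∈ range d, n j * q ^ j := by omega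
        rw [h3, add_zero] at h2
        exact (Nat.add_modEq_left (a := ∑ j ∈ range d, n j * q ^ j)
          (n := q ^ d - 1)).symm.trans h2
      obtain ⟨g, hg⟩ := keyB q d κ θ hq hκ0 hκ _ n rfl hmod
      refine ⟨g, ?_⟩
      intro S _ _ G hG
      rw [← hg S G hG]
      simp only [pow_zero, one_mul]
      rw [← sum_mul, ← map_sum, ← map_sum C, hsum, if_pos hdiv]
      simp
    · refine ⟨0, ?_⟩
      intro S _ _ G hG
      simp only [pow_zero, one_mul]
      rw [← sum_mul, ← map_sum, ← map_sum C, hsum, if_neg hdiv]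
      simp
  | succ r ih =>
    intro n
    choose gf hgf using ih
    refine ⟨∑ j ∈ range d, gf (fun i => n i + if i = j then 1 else 0), ?_⟩
    intro S _ _ G hG
    rw [map_sum, sum_mul]
    have e1 : ∀ j ∈ range d, algebraMap F[X] S (gf (fun i => n i + if i = j then 1 else 0)) *
        ∏ j ∈ range d, G j ^ dig q κ j =
        - ∑ a : Fin d → k, (algebraMap F[X] S (C (rho d θ κ (pol a) *
        ∏ i ∈ range d, (aeval (θ ^ q ^ i) (pol a)) ^ n i)) *
      ((∑ j ∈ range d,
        algebraMap F[X] S (C (aeval (θ ^ q ^ j) (pol a))) * G j) ^ r *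
          ∏ i ∈ range d, G i ^ n i)) * (algebraMap F[X] S (C (aeval (θ ^ q ^ j) (pol a))) * G j) := by
      intro j hj
      rw [← hgf _ S G hG]
      congr 1
      refine sum_congr rfl fun a _ => ?_
      rw [prod_inc d j 1 (mem_range.mp hj), prod_inc d j 1 (mem_range.mp hj), pow_one, pow_one]
      simp only [map_mul]
      ring
    rw [sum_congr rfl e1, sum_neg_distrib, sum_comm]
    congr 1
    refine sum_congr rfl fun a _ => ?_
    rw [← mul_sum, pow_succ]
    ring

theorem k1 : S_C3 → S_K1 := by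
  intro h3 k F _ _ _ _ P θ κ hP hI hθ hκ0 hκ _ y
  induction y using Polynomial.induction_on' with
  | add y1 y2 ih1 ih2 =>
    obtain ⟨g1, hg1⟩ := ih1
    obtain ⟨g2, hg2⟩ := ih2
    refine ⟨g1 + g2, ?_⟩
    intro S _ _ G hG
    rw [map_add, add_mul, ← hg1 S G hG, ← hg2 S G hG, ← neg_add, ← sum_add_distrib]
    congr 1
    refine sum_congr rfl fun a _ => ?_
    rw [map_add]
    ring
  | monomial r u =>
    obtain ⟨g, hg⟩ := keyA h3 P θ κ hP hI hθ hκ0 hκ r (fun _ => 0)
    refine ⟨u * g, ?_⟩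
    intro S _ _ G hG
    have := hg S G hG
    simp only [pow_zero, prod_const_one, mul_one] at this
    rw [map_mul, mul_assoc, ← this, mul_neg, mul_sum]
    congr 1
    refine sum_congr rfl fun a _ => ?_
    rw [aeval_monomial]
    ring

end Pool.Agent.W880.GK.K1
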