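import Pool.Agent.W345.GK.Gau

/-!
# Project GK, part GS: Gauss sums at infinity
-/

set_option autoImplicit false

open Polynomial Finset

namespace Pool.Agent.W880.GK.GS

open Pool.Agent.W345.GK

section General

variable {k F : Type} [Field k] [Fintype k] [Field F] [Algebra k F] (P : k[X]) (θ : F)

lemma per (h3 : S_C3) (hP : P.Monic) (hI : Irreducible P) (hθ : aeval θ P = 0) (j : ℕ) :
    θ ^ Fintype.card k ^ (j % P.natDegree) = θ ^ Fintype.card k ^ j := by
  have hp : Function.Periodic (fun j => θ ^ Fintype.card k ^ j) P.natDegree := by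
    intro j
    show θ ^ _ = θ ^ _
    rw [pow_add, mul_comm, pow_mul, (h3 k F P θ hP hI hθ).1]
  exact hp.map_mod_nat j

lemma charsum (h3 : S_C3) (hP : P.Monic) (hI : Irreducible P) (hθ : aeval θ P = 0) (i j : ℕ)
    (hi : i < P.natDegree) (hj : j < P.natDegree) :
    ∑ b : Fin P.natDegree → k, (aeval (θ ^ Fintype.card k ^ j) (pol b))⁻¹ *
      aeval (θ ^ Fintype.card k ^ i) (pol b) = if i = j then (-1 : F) else 0 := by
  obtain ⟨c1, c2, c3, c4, c5, c6⟩ := h3 k F P θ hP hI hθ
  have hq : 1 < Fintype.card k := Fintype.one_lt_card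
  set q := Fintype.card k with hqd
  set d := P.natDegree with hd
  have b1 : q ^ i < q ^ d := Nat.pow_lt_pow_right hq hi
  have b2 : q ^ j < q ^ d := Nat.pow_lt_pow_right hq hj
  have b3 : 1 ≤ q ^ i := Nat.one_le_pow _ _ (by omega)
  have b4 : 1 ≤ q ^ j := Nat.one_le_pow _ _ (by omega)
  obtain ⟨e, he⟩ : ∃ e, e = q ^ i + (q ^ d - 1) - q ^ j := ⟨_, rfl⟩
  have hterm : ∀ b : Fin d → k, (aeval (θ ^ q ^ j) (pol b))⁻¹ * aeval (θ ^ q ^ i) (pol b) =
      (aeval θ (pol b)) ^ e := by
    intro b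
    rw [c4 _ j, c4 _ i]
    have hfix : (aeval θ (pol b)) ^ q ^ d = aeval θ (pol b) := by
      rw [← c4 _ d, c1]
    generalize aeval θ (pol b) = x at hfix ⊢
    by_cases hx : x = 0
    · rw [hx, zero_pow (by omega : q ^ i ≠ 0), zero_pow (by omega : e ≠ 0), mul_zero]
    · rw [inv_mul_eq_iff_eq_mul₀ (pow_ne_zero _ hx), ← pow_add]
      have h1 : q ^ j + e = q ^ i + (q ^ d - 1) := by omega
      have h2 : x ^ (q ^ d - 1) = 1 := by
        have h3 : x ^ (q ^ d - 1) * x = 1 * x := by
          rw [← pow_succ, one_mul]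
          have : q ^ d - 1 + 1 = q ^ d := by omega
          rw [this, hfix]
        exact mul_right_cancel₀ hx h3
      rw [h1, pow_add, h2, mul_one]
  rw [sum_congr rfl fun b _ => hterm b, c6 e (by omega)]
  by_cases hij : i = j
  · rw [if_pos hij, if_pos]
    rw [he, hij]
    have : q ^ j + (q ^ d - 1) - q ^ j = q ^ d - 1 := by omega
    rw [this]
  · rw [if_neg hij, if_neg]
    rintro ⟨m, hm⟩
    rcases Nat.lt_or_ge m 1 with h | h
    · have : m = 0 := by omega
      rw [this, mul_zero] at hm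
      omega
    · rcases Nat.lt_or_ge m 2 with h' | h'
      · have : m = 1 := by omega
        rw [this, mul_one] at hm
        have : q ^ i = q ^ j := by omega
        exact hij (Nat.pow_right_injective (by omega) this)
      · have : (q ^ d - 1) * 2 ≤ (q ^ d - 1) * m := Nat.mul_le_mul_left _ h'
        omega

variable {E : Type} [Field E] (c : F →+* E)

lemma extract (h3 : S_C3) (hP : P.Monic) (hI : Irreducible P) (hθ : aeval θ P = 0) (w : ℕ → E)
    (j : ℕ) (hj : j < P.natDegree) :
    - ∑ b : Fin P.natDegree → k, c ((aeval (θ ^ Fintype.card k ^ j) (pol b))⁻¹) *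
      ∑ i ∈ range P.natDegree, c (aeval (θ ^ Fintype.card k ^ i) (pol b)) * w i = w j := by
  simp only [mul_sum]
  rw [sum_comm]
  have h1 : ∀ i ∈ range P.natDegree, ∑ b : Fin P.natDegree → k,
      c ((aeval (θ ^ Fintype.card k ^ j) (pol b))⁻¹) *
        (c (aeval (θ ^ Fintype.card k ^ i) (pol b)) * w i) =
      if i = j then - w i else 0 := by
    intro i hi
    have h2 := charsum P θ h3 hP hI hθ i j (mem_range.mp hi) hj
    have h4 : ∑ b : Fin P.natDegree → k,
        c ((aeval (θ ^ Fintype.card k ^ j) (pol b))⁻¹) *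
        (c (aeval (θ ^ Fintype.card k ^ i) (pol b)) * w i) =
        c (∑ b : Fin P.natDegree → k, (aeval (θ ^ Fintype.card k ^ j) (pol b))⁻¹ *
          aeval (θ ^ Fintype.card k ^ i) (pol b)) * w i := by
      rw [map_sum, sum_mul]
      refine sum_congr rfl fun b _ => ?_
      rw [map_mul, mul_assoc]
    rw [h4, h2]
    split_ifs
    · rw [map_neg, map_one, neg_one_mul]
    · rw [map_zero, zero_mul]
  rw [sum_congr rfl h1, sum_ite_eq' (range P.natDegree) j, if_pos (mem_range.mpr hj), neg_neg]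

lemma expan (h3 : S_C3) (hP : P.Monic) (hI : Irreducible P) (hθ : aeval θ P = 0)
    (L : k[X] → E) (hadd : ∀ a b, L (a + b) = L a + L b)
    (hsm : ∀ (u : k) (a : k[X]), L (C u * a) = c (algebraMap k F u) * L a)
    (hz : ∀ a, P ∣ a → L a = 0) :
    ∃ w : ℕ → E, ∀ a : k[X], L a =
      ∑ i ∈ range P.natDegree, c (aeval (θ ^ Fintype.card k ^ i) a) * w i := by
  obtain ⟨c1, c2, c3, c4, c5, c6⟩ := h3 k F P θ hP hI hθ
  set q := Fintype.card k with hqd
  set d := P.natDegree with hd
  set M : Matrix (Fin d) (Fin d) E := Matrix.vandermonde (fun j : Fin d => c (θ ^ q ^ (j : ℕ)))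
    with hM
  have hdet : IsUnit M.det := by
    rw [isUnit_iff_ne_zero, hM, Matrix.det_vandermonde_ne_zero_iff]
    intro i j hij
    exact Fin.ext (c2 i i.2 j j.2 (c.injective hij))
  set v : Fin d → E := Matrix.vecMul (fun i : Fin d => L (X ^ (i : ℕ))) M⁻¹ with hv
  have hvM : ∀ i : Fin d, ∑ j : Fin d, v j * c (θ ^ q ^ (j : ℕ)) ^ (i : ℕ) = L (X ^ (i : ℕ)) := by
    intro i
    have h1 : Matrix.vecMul v M = fun i : Fin d => L (X ^ (i : ℕ)) := by
      rw [hv, Matrix.vecMul_vecMul, Matrix.nonsing_inv_mul _ hdet, Matrix.vecMul_one]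
    have h2 := congrFun h1 i
    rw [← h2]
    rfl
  refine ⟨fun n => if h : n < d then v ⟨n, h⟩ else 0, ?_⟩
  -- polynomials of small degree
  have key : ∀ a : k[X], a.natDegree < d → L a =
      ∑ i ∈ range d, c (aeval (θ ^ q ^ i) a) * (if h : i < d then v ⟨i, h⟩ else 0) := by
    intro a ha
    have ea : a = ∑ i ∈ range d, C (a.coeff i) * X ^ i := a.as_sum_range_C_mul_X_pow' ha
    have hL : L a = ∑ i ∈ range d, c (algebraMap k F (a.coeff i)) * L (X ^ i) := by
      have h1 : L (∑ i ∈ range d, C (a.coeff i) * X ^ i) =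
          ∑ i ∈ range d, L (C (a.coeff i) * X ^ i) :=
        map_sum (AddMonoidHom.mk' L hadd) (fun i => C (a.coeff i) * X ^ i) (range d)
      conv_lhs => rw [ea]
      rw [h1]
      exact sum_congr rfl fun i _ => hsm _ _
    have hev : ∀ j : ℕ, aeval (θ ^ q ^ j) a =
        ∑ i ∈ range d, algebraMap k F (a.coeff i) * (θ ^ q ^ j) ^ i := by
      intro j
      conv_lhs => rw [ea]
      rw [map_sum]
      refine sum_congr rfl fun i _ => ?_
      rw [map_mul, aeval_C, map_pow, aeval_X]
    rw [hL, ← Fin.sum_univ_eq_sum_range (fun i => c (algebraMap k F (a.coeff i)) * L (X ^ i)),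
      ← Fin.sum_univ_eq_sum_range (fun i => c (aeval (θ ^ q ^ i) a) *
        (if h : i < d then v ⟨i, h⟩ else 0))]
    have e1 : ∀ i : Fin d, c (algebraMap k F (a.coeff i)) * L (X ^ (i : ℕ)) =
        ∑ j : Fin d, c (algebraMap k F (a.coeff i)) * (v j * c (θ ^ q ^ (j : ℕ)) ^ (i : ℕ)) := by
      intro i
      rw [← hvM i, mul_sum]
    rw [sum_congr rfl fun i _ => e1 i, sum_comm]
    refine sum_congr rfl fun j _ => ?_
    rw [dif_pos j.2, hev, ← Fin.sum_univ_eq_sum_range
      (fun i => algebraMap k F (a.coeff i) * (θ ^ q ^ (j : ℕ)) ^ i), map_sum, sum_mul]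
    refine sum_congr rfl fun i _ => ?_
    rw [map_mul, map_pow c (θ ^ q ^ (j : ℕ)) (i : ℕ)]
    ring
  intro a
  have hP1 : P ≠ 1 := fun h => hI.not_isUnit (by rw [h]; exact isUnit_one)
  have ha := modByMonic_add_div a P
  have h1 : L a = L (a %ₘ P) := by
    conv_lhs => rw [← ha]
    rw [hadd, hz _ (dvd_mul_right _ _), add_zero]
  have h2 : ∀ i : ℕ, aeval (θ ^ q ^ i) a = aeval (θ ^ q ^ i) (a %ₘ P) := by
    intro i
    conv_lhs => rw [← ha]
    rw [map_add, map_mul, c4 P i, hθ, zero_pow (pow_ne_zero _ Fintype.card_ne_zero), zero_mul,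
      add_zero]
  rw [h1, key (a %ₘ P) (natDegree_modByMonic_lt a hP hP1)]
  refine sum_congr rfl fun i _ => ?_
  rw [h2]

/-- the Gauss sums attached to `L` -/
noncomputable def gg (L : k[X] → E) (j : ℕ) : E :=
  - ∑ b : Fin P.natDegree → k, c ((aeval (θ ^ Fintype.card k ^ j) (pol b))⁻¹) * L (pol b)

lemma gg_mod (h3 : S_C3) (hP : P.Monic) (hI : Irreducible P) (hθ : aeval θ P = 0)
    (L : k[X] → E) (j : ℕ) : gg P θ c L (j % P.natDegree) = gg P θ c L j := by
  unfold gg
  rw [per P θ h3 hP hI hθ]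

lemma main (h3 : S_C3) (hP : P.Monic) (hI : Irreducible P) (hθ : aeval θ P = 0)
    (L : k[X] → E) (hadd : ∀ a b, L (a + b) = L a + L b)
    (hsm : ∀ (u : k) (a : k[X]), L (C u * a) = c (algebraMap k F u) * L a)
    (hz : ∀ a, P ∣ a → L a = 0) (a : k[X]) :
    L a = ∑ i ∈ range P.natDegree, c (aeval (θ ^ Fintype.card k ^ i) a) * gg P θ c L i := by
  obtain ⟨w, hw⟩ := expan P θ c h3 hP hI hθ L hadd hsm hz
  have hgw : ∀ i ∈ range P.natDegree, gg P θ c L i = w i := by
    intro i hi
    rw [← extract P θ c h3 hP hI hθ w i (mem_range.mp hi)]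
    unfold gg
    congr 1
    refine sum_congr rfl fun b _ => ?_
    rw [hw]
  rw [hw a]
  refine sum_congr rfl fun i hi => ?_
  rw [hgw i hi]

lemma shift (h3 : S_C3) (hP : P.Monic) (hI : Irreducible P) (hθ : aeval θ P = 0)
    (L : k[X] → E) (hadd : ∀ a b, L (a + b) = L a + L b)
    (hsm : ∀ (u : k) (a : k[X]), L (C u * a) = c (algebraMap k F u) * L a)
    (hz : ∀ a, P ∣ a → L a = 0) (T : E) (j : ℕ) :
    - ∑ b : Fin P.natDegree → k, c ((aeval (θ ^ Fintype.card k ^ j) (pol b))⁻¹) *
      (L (X * pol b) - T * L (pol b)) =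
      (c (θ ^ Fintype.card k ^ j) - T) * gg P θ c L j := by
  have hd : 0 < P.natDegree := hI.natDegree_pos
  rw [← gg_mod P θ c h3 hP hI hθ L j, ← per P θ h3 hP hI hθ j]
  have hj : j % P.natDegree < P.natDegree := Nat.mod_lt _ hd
  generalize j % P.natDegree = j' at hj ⊢
  rw [← extract P θ c h3 hP hI hθ
    (fun i => (c (θ ^ Fintype.card k ^ i) - T) * gg P θ c L i) j' hj]
  congr 1
  refine sum_congr rfl fun b _ => ?_
  congr 1
  rw [main P θ c h3 hP hI hθ L hadd hsm hz (X * pol b),
    main P θ c h3 hP hI hθ L hadd hsm hz (pol b), mul_sum, ← sum_sub_distrib]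
  refine sum_congr rfl fun i _ => ?_
  rw [map_mul, aeval_X, map_mul]
  ring

end General

lemma algC {F : Type} [Field F] (x : F) : algebraMap F (LS F) x = HahnSeries.C x := by
  rw [HahnSeries.algebraMap_apply']
  simp

lemma iA_C {k F : Type} [Field k] [Fintype k] [Field F] [Algebra k F] (u : k) :
    (iA (C u : k[X]) : LS F) = HahnSeries.C (algebraMap k F u) := by
  unfold iA iF
  simp only [RingHom.coe_comp, Function.comp_apply, RingHom.coe_coe, coe_mapRingHom, map_C, aeval_C]
  exact algC _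

lemma iA_X {k F : Type} [Field k] [Fintype k] [Field F] [Algebra k F] :
    (iA (X : k[X]) : LS F) = TT F (Fintype.card k) := by
  unfold iA iF
  simp

lemma iF_sub {F : Type} [Field F] (q : ℕ) (x : F) :
    iF q (C x - X : F[X]) = HahnSeries.C x - TT F q := by
  unfold iF
  rw [map_sub, aeval_C, aeval_X, algC]

theorem gs_ok : S_I1 → S_C3 → S_GS := by
  intro hI1 h3 k F _ _ _ _ P θ Lam hP hI hθ hL
  have hadd := hL.add
  have hsm : ∀ (u : k) (a : k[X]), Lam (C u * a) =
      (HahnSeries.C : F →+* LS F) (algebraMap k F u) * Lam a := by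
    intro u a
    rw [hL.smul, iA_C]
  have hz : ∀ a, P ∣ a → Lam a = 0 := fun a h => (hL.zero_iff a).mpr h
  have hgs : ∀ j, gs P θ Lam j = gg P θ (HahnSeries.C : F →+* LS F) Lam j := fun j => rfl
  have hX : ∀ a : k[X], (Lam a) ^ Fintype.card k =
      Lam (X * a) - TT F (Fintype.card k) * Lam a := by
    intro a
    rw [hL.mulX, iA_X]
    ring
  have hmain := main P θ (HahnSeries.C : F →+* LS F) h3 hP hI hθ Lam hadd hsm hz
  have hshift := shift P θ (HahnSeries.C : F →+* LS F) h3 hP hI hθ Lam hadd hsm hz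
    (TT F (Fintype.card k))
  have hper : ∀ j, gs P θ Lam (j + P.natDegree) = gs P θ Lam j := by
    intro j
    rw [hgs, hgs, ← gg_mod P θ _ h3 hP hI hθ Lam (j + P.natDegree), Nat.add_mod_right,
      gg_mod P θ _ h3 hP hI hθ Lam j]
  have hpow : ∀ j, (gs P θ Lam j) ^ Fintype.card k =
      iF (Fintype.card k) (C (θ ^ Fintype.card k ^ (j + 1)) - X) * gs P θ Lam (j + 1) := by
    intro j
    rw [iF_sub, hgs (j + 1), ← hshift (j + 1)]
    let _ : Algebra k (LS F) := ((HahnSeries.C : F →+* LS F).comp (algebraMap k F)).toAlgebra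
    have hfr : ∀ x : LS F, x ^ Fintype.card k = FiniteField.frobeniusAlgHom k (LS F) x :=
      fun x => rfl
    rw [hfr]
    unfold gs
    rw [map_neg, map_sum]
    congr 1
    refine sum_congr rfl fun b _ => ?_
    rw [map_mul, ← hfr, ← hfr, hX, ← map_pow, inv_pow]
    congr 3
    have c4 := (h3 k F P θ hP hI hθ).2.2.2.1
    rw [c4, c4, ← pow_mul, ← pow_succ]
  refine ⟨⟨hpow, hper⟩, ?_, ?_, ?_⟩
  · intro a
    exact hmain a
  · -- no Gauss sum vanishes
    intro j hj
    have hstep : ∀ i, gs P θ Lam i = 0 → gs P θ Lam (i + 1) = 0 := by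
      intro i hi
      have h1 := hpow i
      rw [hi, zero_pow Fintype.card_ne_zero] at h1
      rcases mul_eq_zero.mp h1.symm with h | h
      · exfalso
        have h2 : (C (θ ^ Fintype.card k ^ (i + 1)) - X : F[X]) = 0 :=
          (hI1 k F).1 (by rw [h, map_zero])
        have h3 : (X - C (θ ^ Fintype.card k ^ (i + 1)) : F[X]) = 0 := by
          rw [← neg_sub, h2, neg_zero]
        exact X_sub_C_ne_zero _ h3
      · exact h
    have hall : ∀ i, gs P θ Lam (j + i) = 0 := by
      intro i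
      induction i with
      | zero => exact hj
      | succ i ih => exact hstep _ ih
    have hd : 0 < P.natDegree := hI.natDegree_pos
    have hall' : ∀ i, gs P θ Lam i = 0 := by
      intro i
      have h1 : ∀ m, gs P θ Lam (i + m * P.natDegree) = gs P θ Lam i := by
        intro m
        induction m with
        | zero => simp
        | succ m ih => rw [Nat.succ_mul, ← add_assoc, hper, ih]
      rw [← h1 j]
      have h2 : j ≤ i + j * P.natDegree := by
        have : j * 1 ≤ j * P.natDegree := Nat.mul_le_mul_left _ hd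
        omega
      obtain ⟨m, hm⟩ := Nat.exists_eq_add_of_le h2
      rw [hm]
      exact hall m
    have h1 : Lam 1 = 0 := by
      rw [hmain 1]
      refine sum_eq_zero fun i _ => ?_
      rw [← hgs, hall' i, mul_zero]
    exact hI.not_isUnit (isUnit_of_dvd_one ((hL.zero_iff 1).mp h1))
  · intro t _ htc htf j
    rw [iF_sub, hgs j, ← hshift j]
    unfold gg
    rw [map_neg, map_sum]
    congr 1
    refine sum_congr rfl fun b _ => ?_
    rw [map_mul, htc, htf _ (hL.rat _), hX]

end Pool.Agent.W880.GK.GS
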