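import Pool.Agent.W345.GK.Cl2

/-!
# Project GK, part IDL: divisors of logarithmic derivatives
-/

set_option autoImplicit false

open Polynomial Finset IsDedekindDomain
open scoped nonZeroDivisors

namespace Pool.Agent.W880.GK.IDL

open Pool.Agent.W345.GK

section Dedekind

variable {R K : Type} [CommRing R] [IsDedekindDomain R] [Field K] [Algebra R K]
  [IsFractionRing R K]

/-- valuation and exponent, integral elements -/
lemma val_count_int (v : HeightOneSpectrum R) (r : R) (hr : r ≠ 0) :
    v.valuation K (algebraMap R K r) = WithZero.exp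
      (-(FractionalIdeal.count K v (FractionalIdeal.spanSingleton R⁰ (algebraMap R K r)))) := by
  classical
  have h1 : (Ideal.span {r} : Ideal R) ≠ 0 := by
    rw [Ne, Ideal.zero_eq_bot, Ideal.span_singleton_eq_bot]
    exact hr
  rw [HeightOneSpectrum.valuation_of_algebraMap, HeightOneSpectrum.intValuation_if_neg _ hr,
    ← FractionalIdeal.coeIdeal_span_singleton, FractionalIdeal.count_coe K v h1]

/-- valuation and exponent -/
lemma val_count (v : HeightOneSpectrum R) (f : K) (hf : f ≠ 0) :
    v.valuation K f = WithZero.exp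
      (-(FractionalIdeal.count K v (FractionalIdeal.spanSingleton R⁰ f))) := by
  obtain ⟨a, b, hb, rfl⟩ := IsFractionRing.div_surjective (A := R) f
  have hb0 : b ≠ 0 := nonZeroDivisors.ne_zero hb
  have hb1 : algebraMap R K b ≠ 0 := by
    rw [Ne, FaithfulSMul.algebraMap_eq_zero_iff]
    exact hb0
  have ha1 : algebraMap R K a ≠ 0 := fun h => hf (by rw [h, zero_div])
  have ha0 : a ≠ 0 := fun h => ha1 (by rw [h, map_zero])
  have h1 : FractionalIdeal.spanSingleton R⁰ (algebraMap R K a / algebraMap R K b) *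
      FractionalIdeal.spanSingleton R⁰ (algebraMap R K b) =
      FractionalIdeal.spanSingleton R⁰ (algebraMap R K a) := by
    rw [FractionalIdeal.spanSingleton_mul_spanSingleton, div_mul_cancel₀ _ hb1]
  have h2 := congrArg (FractionalIdeal.count K v) h1
  rw [FractionalIdeal.count_mul K v (by rwa [Ne, FractionalIdeal.spanSingleton_eq_zero_iff])
    (by rwa [Ne, FractionalIdeal.spanSingleton_eq_zero_iff])] at h2
  rw [map_div₀, val_count_int v a ha0, val_count_int v b hb0, ← h2, ← WithZero.exp_sub]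
  congr 1
  ring

lemma val_int (v : HeightOneSpectrum R) (a : ℤ) : v.valuation K (a : K) ≤ 1 := by
  have : v.valuation K (algebraMap R K (a : R)) ≤ 1 := v.valuation_le_one _
  rwa [map_intCast] at this

/-- the local statement -/
lemma key (p : ℕ) [Fact p.Prime] [CharP K p] (d : Derivation ℤ K K) (v : HeightOneSpectrum R)
    (hd : ∀ y : R, v.valuation K (d (algebraMap R K y)) ≤ 1)
    (g : K) (hg : v.valuation K g < 1) (hg' : v.valuation K (d g) = 1)
    (f : K) (hf : f ≠ 0) (hff : v.valuation K (d f / f) ≤ 1) (m : ℤ)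
    (hm : v.valuation K f = WithZero.exp (-m)) : (p : ℤ) ∣ m := by
  by_contra hp
  -- the derivation maps the valuation ring into itself
  have hD : ∀ x : K, v.valuation K x ≤ 1 → v.valuation K (d x) ≤ 1 := by
    intro x hx
    obtain ⟨n, s, hs⟩ := v.exists_primeCompl_mul_eq_of_integer x hx
    have hs1 : v.valuation K (algebraMap R K s) = 1 :=
      v.valuation_eq_one_iff_notMem.mpr s.2
    have h1 : d x * algebraMap R K s = d (algebraMap R K n) - x * d (algebraMap R K s) := by
      rw [← hs, d.leibniz]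
      simp only [smul_eq_mul]
      ring
    have h2 : v.valuation K (d x * algebraMap R K s) ≤ 1 := by
      rw [h1]
      refine (Valuation.map_sub _ _ _).trans (max_le (hd n) ?_)
      rw [map_mul]
      exact mul_le_one' hx (hd s)
    rwa [map_mul, hs1, mul_one] at h2
  obtain ⟨π, hπ⟩ := v.valuation_exists_uniformizer K
  have hπ0 : π ≠ 0 := by
    intro h
    rw [h, map_zero] at hπ
    exact WithZero.exp_ne_zero hπ.symm
  have hπ1 : v.valuation K π < 1 := by
    rw [hπ, ← WithZero.exp_zero, WithZero.exp_lt_exp]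
    norm_num
  obtain ⟨w, hw⟩ : ∃ w, w = f / π ^ m := ⟨_, rfl⟩
  have hπm : π ^ m ≠ 0 := zpow_ne_zero m hπ0
  have hfw : f = π ^ m * w := by
    rw [hw]
    field_simp
  have hw0 : w ≠ 0 := by
    rw [hw]
    exact div_ne_zero hf hπm
  have hw1 : v.valuation K w = 1 := by
    rw [hw, map_div₀, map_zpow₀, hm, hπ, ← WithZero.exp_zsmul, ← WithZero.exp_sub]
    have : -m - m • (-1 : ℤ) = 0 := by
      rw [smul_eq_mul]
      ring
    rw [this, WithZero.exp_zero]
  have hlog : d f / f = m * (d π / π) + d w / w := by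
    rw [hfw, d.leibniz, d.leibniz_zpow]
    simp only [smul_eq_mul, zsmul_eq_mul]
    rw [zpow_sub_one₀ hπ0]
    field_simp
    ring
  have h3 : v.valuation K ((m : K) * (d π / π)) ≤ 1 := by
    have e : (m : K) * (d π / π) = d f / f - d w / w := by
      rw [hlog]
      ring
    rw [e]
    refine (Valuation.map_sub _ _ _).trans (max_le hff ?_)
    rw [map_div₀, hw1, div_one]
    exact hD w hw1.le
  -- `m` is invertible
  have h4 : v.valuation K (d π / π) ≤ 1 := by
    have hcop : IsCoprime m (p : ℤ) := by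
      rw [Int.isCoprime_iff_gcd_eq_one, Int.gcd_comm]
      have hpp : Prime (p : ℤ) := Nat.prime_iff_prime_int.mp Fact.out
      exact Int.isCoprime_iff_gcd_eq_one.mp ((Prime.coprime_iff_not_dvd hpp).mpr hp)
    obtain ⟨a, b, hab⟩ := hcop
    have h5 : (a : K) * m = 1 := by
      have := congrArg (fun z : ℤ => (z : K)) hab
      push_cast at this
      rwa [CharP.cast_eq_zero, mul_zero, add_zero] at this
    have h6 : d π / π = (a : K) * ((m : K) * (d π / π)) := by
      rw [← mul_assoc, h5, one_mul]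
    rw [h6, map_mul]
    exact mul_le_one' (val_int v a) h3
  have h7 : v.valuation K (d π) < 1 := by
    have e : d π = π * (d π / π) := by
      field_simp
    rw [e, map_mul]
    exact lt_of_le_of_lt (mul_le_of_le_one_right' h4) hπ1
  -- the maximal ideal is stable
  have h8 : v.valuation K (g / π) ≤ 1 := by
    by_cases hg0 : g = 0
    · rw [hg0, zero_div, map_zero]
      exact zero_le_one
    · rw [map_div₀, hπ]
      have hg1 : v.valuation K g ≠ 0 := (Valuation.ne_zero_iff _).mpr hg0
      obtain ⟨n, hn⟩ : ∃ n : ℤ, v.valuation K g = WithZero.exp n :=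
        ⟨WithZero.log (v.valuation K g), (WithZero.exp_log hg1).symm⟩
      rw [hn, ← WithZero.exp_zero, WithZero.exp_lt_exp] at hg
      rw [hn, ← WithZero.exp_sub, ← WithZero.exp_zero, WithZero.exp_le_exp]
      omega
  have h9 : v.valuation K (d g) < 1 := by
    have e : d g = π * d (g / π) + (g / π) * d π := by
      have : g = π * (g / π) := by field_simp
      conv_lhs => rw [this]
      rw [d.leibniz]
      simp only [smul_eq_mul]
    rw [e]
    refine lt_of_le_of_lt (Valuation.map_add _ _ _) (max_lt ?_ ?_)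
    · rw [map_mul]
      exact lt_of_le_of_lt (mul_le_of_le_one_right' (hD _ h8)) hπ1
    · rw [map_mul]
      exact lt_of_le_of_lt (mul_le_of_le_one_left' h8) h7
  rw [hg'] at h9
  exact lt_irrefl _ h9

/-- a fractional ideal whose exponents outside `v0` are divisible by `p` -/
lemma assemble (p : ℕ) (v0 : HeightOneSpectrum R) (f l : Kˣ)
    (hl : FractionalIdeal.spanSingleton R⁰ (l : K) = (v0.asIdeal : FractionalIdeal R⁰ K))
    (hf : ∀ v : HeightOneSpectrum R, v ≠ v0 →
      (p : ℤ) ∣ FractionalIdeal.count K v (FractionalIdeal.spanSingleton R⁰ (f : K))) :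
    ∃ (I : (FractionalIdeal R⁰ K)ˣ) (r : ℤ),
      toPrincipalIdeal R K f = I ^ p * toPrincipalIdeal R K l ^ r := by
  classical
  obtain ⟨F, hF⟩ : ∃ F, F = FractionalIdeal.spanSingleton R⁰ (f : K) := ⟨_, rfl⟩
  have hF0 : F ≠ 0 := by
    rw [hF, Ne, FractionalIdeal.spanSingleton_eq_zero_iff]
    exact f.ne_zero
  rw [← hF] at hf
  obtain ⟨n, hn⟩ : ∃ n : HeightOneSpectrum R → ℤ,
      n = fun v => if v = v0 then 0 else FractionalIdeal.count K v F / p := ⟨_, rfl⟩
  have hnfin : ∀ᶠ v in Filter.cofinite, n v = 0 := by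
    filter_upwards [FractionalIdeal.finite_factors F] with v hv
    rw [hn]
    simp [hv]
  obtain ⟨I0, hI⟩ : ∃ I0 : FractionalIdeal R⁰ K,
      I0 = ∏ᶠ v : HeightOneSpectrum R, (v.asIdeal : FractionalIdeal R⁰ K) ^ n v := ⟨_, rfl⟩
  have hI0 : I0 ≠ 0 := by
    rw [hI]
    refine finprod_induction (fun x : FractionalIdeal R⁰ K => x ≠ 0) one_ne_zero
      (fun x y hx hy => mul_ne_zero hx hy) (fun v => zpow_ne_zero _ ?_)
    exact FractionalIdeal.coeIdeal_ne_zero.mpr v.ne_bot
  have hv0 : ((v0.asIdeal : Ideal R) : FractionalIdeal R⁰ K) ≠ 0 :=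
    FractionalIdeal.coeIdeal_ne_zero.mpr v0.ne_bot
  obtain ⟨r, hr⟩ : ∃ r, r = FractionalIdeal.count K v0 F := ⟨_, rfl⟩
  have hG0 : I0 ^ p * ((v0.asIdeal : Ideal R) : FractionalIdeal R⁰ K) ^ r ≠ 0 :=
    mul_ne_zero (pow_ne_zero _ hI0) (zpow_ne_zero _ hv0)
  have hmain : F = I0 ^ p * ((v0.asIdeal : Ideal R) : FractionalIdeal R⁰ K) ^ r := by
    rw [← FractionalIdeal.finprod_heightOneSpectrum_factorization' K hF0,
      ← FractionalIdeal.finprod_heightOneSpectrum_factorization' K hG0]
    refine finprod_congr fun v => ?_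
    congr 1
    rw [FractionalIdeal.count_mul K v (pow_ne_zero _ hI0) (zpow_ne_zero _ hv0),
      FractionalIdeal.count_pow, FractionalIdeal.count_zpow, hI,
      FractionalIdeal.count_finprod K v n hnfin, hn]
    by_cases hv : v = v0
    · subst hv
      rw [FractionalIdeal.count_self, hr]
      simp
    · rw [FractionalIdeal.count_maximal_coprime K v (fun h => hv h.symm)]
      dsimp only
      rw [if_neg hv, mul_zero, add_zero, Int.mul_ediv_cancel' (hf v hv)]
  refine ⟨Units.mk0 I0 hI0, r, ?_⟩
  apply Units.ext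
  rw [coe_toPrincipalIdeal, Units.val_mul, Units.val_pow_eq_pow_val, Units.val_zpow_eq_zpow_val,
    coe_toPrincipalIdeal, Units.val_mk0, hl, ← hF]
  exact hmain

end Dedekind

/-- Carlitz polynomials are monic -/
lemma car_monic (h1 : S_C1) {k : Type} [Field k] [Fintype k] (P : k[X]) (hP : P.Monic) :
    (car P).Monic := by
  obtain ⟨c1, _, _, c4, _⟩ := h1 k
  have hq : 1 < Fintype.card k := Fintype.one_lt_card
  rw [c1 P, sum_range_succ, c4 P hP, map_one, one_mul, add_comm]
  refine monic_X_pow_add ?_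
  refine (degree_sum_le _ _).trans_lt ?_
  rw [Finset.sup_lt_iff (WithBot.bot_lt_coe _)]
  intro i hi
  refine (degree_C_mul_X_pow_le _ _).trans_lt ?_
  exact_mod_cast Nat.pow_lt_pow_right hq (mem_range.mp hi)

theorem idl : S_C1 → S_LAM → S_IDL := by
  intro hC1 hLAM k F Fc _ _ _ _ _ _ _ _ _ _ _ _ p _ _ P c ι D hP hI hrank hD f l hf hl
  -- the element `λ`
  have hlint : IsIntegral k[X] (c.lam 1) := by
    refine ⟨car P, car_monic hC1 P hP, ?_⟩
    have := (c.roots (c.lam 1)).mpr ⟨1, rfl⟩
    rwa [aeval_def] at this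
  obtain ⟨l', hl'⟩ : ∃ l' : integralClosure k[X] Fc, (l' : Fc) = c.lam 1 := ⟨⟨c.lam 1, hlint⟩, rfl⟩
  obtain ⟨hpr, hl0, huniq⟩ := hLAM k Fc P c hP hI hrank l' hl'
  obtain ⟨v0, hv0⟩ : ∃ v0 : HeightOneSpectrum (integralClosure k[X] Fc),
      v0.asIdeal = Ideal.span {l'} := ⟨⟨Ideal.span {l'}, hpr, by
    rw [Ne, Ideal.span_singleton_eq_bot]
    exact hl0⟩, rfl⟩
  have hp0 : CharP Fc p := charP_of_injective_ringHom (c.inj) p
  -- outside `λ` the element `P` is a unit
  have hPv : ∀ v : HeightOneSpectrum (integralClosure k[X] Fc), v ≠ v0 →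
      v.valuation Fc (algebraMap k[X] Fc P) = 1 := by
    intro v hv
    have h1 : algebraMap k[X] (integralClosure k[X] Fc) P ∉ v.asIdeal := by
      intro h
      apply hv
      apply HeightOneSpectrum.ext
      rw [huniq v.asIdeal v.isPrime h, hv0]
    have h2 := v.valuation_eq_one_iff_notMem (K := Fc) |>.mpr h1
    exact h2
  have hOP : ∀ v : HeightOneSpectrum (integralClosure k[X] Fc), v ≠ v0 → ∀ y : Fc, OP P y →
      v.valuation Fc y ≤ 1 := by
    intro v hv y hy
    obtain ⟨n, hn⟩ := hy
    have h1 : v.valuation Fc (algebraMap (integralClosure k[X] Fc) Fc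
      ⟨(algebraMap k[X] Fc P) ^ n * y, hn⟩) ≤ 1 := v.valuation_le_one _
    have h2 : algebraMap (integralClosure k[X] Fc) Fc
      ⟨(algebraMap k[X] Fc P) ^ n * y, hn⟩ = (algebraMap k[X] Fc P) ^ n * y := rfl
    rw [h2, map_mul, map_pow, hPv v hv, one_pow, one_mul] at h1
    exact h1
  -- the derivation
  obtain ⟨d, hd⟩ : ∃ d : Derivation ℤ Fc Fc, ∀ y, d y = D y :=
    ⟨Derivation.mk' (AddMonoidHom.mk' D hD.add).toIntLinearMap (fun a b => by
      simp only [AddMonoidHom.coe_toIntLinearMap, AddMonoidHom.mk'_apply, smul_eq_mul]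
      exact hD.mul a b), fun y => rfl⟩
  refine assemble p v0 f l ?_ ?_
  · rw [hl, ← hl', hv0, FractionalIdeal.coeIdeal_span_singleton]
    rfl
  · intro v hv
    -- an element of `v` with derivative outside `v`
    have hq0 : v.asIdeal.comap (algebraMap k[X] (integralClosure k[X] Fc)) ≠ ⊥ :=
      Ideal.IsIntegral.comap_ne_bot k[X] v.ne_bot
    have hqp : (v.asIdeal.comap (algebraMap k[X] (integralClosure k[X] Fc))).IsPrime :=
      Ideal.comap_isPrime _ _
    obtain ⟨g, hg⟩ : ∃ g, g = Submodule.IsPrincipal.generator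
      (v.asIdeal.comap (algebraMap k[X] (integralClosure k[X] Fc))) := ⟨_, rfl⟩
    have hgmem : g ∈ v.asIdeal.comap (algebraMap k[X] (integralClosure k[X] Fc)) := by
      rw [hg]
      exact Submodule.IsPrincipal.generator_mem _
    have hgprime : Prime g := by
      rw [hg]
      exact Submodule.IsPrincipal.prime_generator_of_isPrime _ hq0
    have hsep : g.Separable := PerfectField.separable_of_irreducible hgprime.irreducible
    have hgd : derivative g ∉ v.asIdeal.comap (algebraMap k[X] (integralClosure k[X] Fc)) := by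
      intro h
      obtain ⟨a, b, hab⟩ := hsep
      apply hqp.ne_top
      rw [Ideal.eq_top_iff_one, ← hab]
      exact Ideal.add_mem _ (Ideal.mul_mem_left _ _ hgmem) (Ideal.mul_mem_left _ _ h)
    refine key p d v ?_ (algebraMap k[X] Fc g) ?_ ?_ (f : Fc) f.ne_zero ?_ _
      (val_count v (f : Fc) f.ne_zero)
    · intro y
      rw [hd]
      refine hOP v hv _ (hD.op _ ⟨0, ?_⟩)
      rw [pow_zero, one_mul]
      exact y.2
    · exact (v.valuation_lt_one_iff_mem (K := Fc) (algebraMap k[X] (integralClosure k[X] Fc) g)).mpr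
        hgmem
    · rw [hd, hD.base]
      exact (v.valuation_eq_one_iff_notMem (K := Fc)).mpr hgd
    · rw [hd]
      exact hOP v hv _ hf

end Pool.Agent.W880.GK.IDL
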